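import Pool.Agent.U222.BL.Fin

/-!
# The conjecture of Beilinson and Bloch for products with constant cyclic coverings branched along
hyperplanes

Let `κ` be a finite field with `q = c ^ f` elements and `𝒱` a class of smooth projective varieties over
`κ`, closed under products, with Chow groups `A` with rational coefficients and a Weil cohomology
theory `H` (framework of helper492 and helper484: `TheoryData`, `IsChow`, `IsWeil`). Let `X_i` be
varieties in `𝒱`, of any dimensions `n_i`, which are models of cyclic coverings

  `w ^ N_i = ∏ l_{i,k} (x) ^ a_{i,k}`

of projective spaces, branched along hyperplanes `l_{i,k} = 0` over `κ`, with exponents prime to `N_i`,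
where `N_i` divides `q - 1` (`IsModel`, see `Pool/Agent/N876/GB3/Defs.lean`: the cohomology is generated
by the classes of cycles and a part `T`, pure of weight `n_i`, without invariants under the covering
group, for which the trace formula holds). Let `N` be a common multiple of the `N_i` and `λ` an
integer such that `IsSmall N λ` holds: for every nonempty finite set `I` of indices and all `j_i` not
divisible by `N_i` (`i ∈ I`) there is a `u` prime to `N` with
`∑_{i ∈ I} weight X_i (u j_i) + λ / 2 < ∑_{i ∈ I} (n_i / 2 + 1)`; here `weight X j` is the mean over the
orbit `j, c j, …, c ^ (f - 1) j` of the sum of the fractional parts of `j a_k / N_i`.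

Let `k` be a global function field with field of constants `κ`, that is, the function field of a curve
over `κ`, and let `Z` be **any** smooth projective variety over `k`, in general not constant, which is
the generic fibre of a morphism from a smooth projective variety `Y` over `κ` to the curve. We
assume that the eigenvalues `b` of Frobenius on the cohomology of `Y` satisfy `|b| ^ 2 = q ^ j` (theorem
of Deligne) and that
* either `λ = 0` and the cyclotomic polynomial of order `N` is irreducible over the field generated by
  the numbers `b` (for given `Y` this is true for all `N` prime to the discriminant of this field, and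
  for all `N` if all classes in the cohomology of `Y` come from cycles),
* or `Y` is of level `≤ λ`: the numbers `q ^ λ b / b̄` are algebraic integers. This is true if
  `dim Z + 1 ≤ λ`.

We assume that the Frobenius is semisimple on the cohomology of the `X_i` and that homologically
trivial self-correspondences of degree zero of the products of copies of the `X_i` and of `Y` are
nilpotent. Both is known (Weil; Kimura) if the `X_i` and `Y` are dominated by products of curves, for
example if the `X_i` are curves or have `n_i + 2` branch hyperplanes in general position, and if `Z` is a
point or a curve such that the surface `Y` is dominated by a product of curves.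

Let `V` be the product of finitely many of the `X_i` (pairwise different), as a constant variety over
`k`.

**Theorem.**
* **The formula `dim CH^i(V × Z)_0 = ord_{s=i} L(H^{2i-1}(V × Z), s)` holds for all `i ≤ n` if and only if
  the formula `dim CH^i(Z)_0 = ord_{s=i} L(H^{2i-1}(Z), s)` holds for all `i ≤ n`.** For one codimension
  `i` it follows from the formula for `Z` in the codimensions `m` with `i - dim V ≤ m ≤ i`.
* The formula holds for the constant variety `V` itself (`Z` a point) in all codimensions.
* For one factor `X = X_i` and the product `V` of others, there are finitely many cycles `D_a` on
  `X`, such that every cycle on `X × V × Z` modulo rational equivalence is a sum of the `D_a × z_a` with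
  cycles `z_a` on `V × Z`, in a unique way, homologically trivial if and only if the `z_a` are; and the
  order of vanishing of `L(H^{2i-1}(X × V × Z), s)` at `s = i` is the sum of the orders of vanishing of
  the `L(H^{2(i - deg a)-1}(V × Z), s)` at `s = i - deg a`.

The theorems of the starting files are about products with abelian varieties (almost all, or with
complex multiplication), about varieties of small genus and about twists. Here the constant factors
are curves of large genus, surfaces of general type, Calabi-Yau varieties and so on, of arbitrary
dimension, given by explicit equations, with the only conditions that `N_i` divides `q - 1` and on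
the numbers `N_i`, `a_{i,k}`; and `Z` is arbitrary, so that the ranks can be positive: for example, let
`Z = E` be an elliptic curve over `κ(t)` whose elliptic surface `Y` is a rational surface; then the
formula is known for `E`, the rank of `E(κ(t))` can be up to eight, all classes in the cohomology of `Y`
come from cycles, and the theorem applies to all coverings with `IsSmall N 0`.

Examples of coverings. (a) Let `X_i` be curves `y ^ N_i = ∏ (x - x_{i,k})` with `N_i` factors, of genus
`(N_i - 1) (N_i - 2) / 2`, for different prime numbers `N_i` dividing `c - 1`. Then `weight X_i j` is the
residue of `j` modulo `N_i`, and `IsSmall N 0` holds for the product `N` of the `N_i` (take `u` with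
`u j_i = 1` modulo `N_i`). (b) Let `X` be the variety `w ^ N = l_1 ⋯ l_N` of dimension `n = N - 2`, with
`N` hyperplanes in general position, for a prime number `N` dividing `c - 1` (the resolutions are
Calabi-Yau varieties, quotients of Fermat varieties). The weight for `u j = 1` is `1`, so `IsSmall N λ`
holds for all `λ < n`: the theorem applies to **all function fields and all `Z` of dimension smaller
than `dim X - 1`** (such that `Y` is dominated by a product of curves).

The proof: by the theorem of Stickelberger on Gauss sums and the product formula no product of
eigenvalues of the Frobenius on the parts `T` of several `X_i` and of a Frobenius eigenvalue of `Y` is a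
power of `q` (helper876). So the Chow groups of `X_i × V' × Y`, `V'` a product of others, are generated
by products of cycles on `X_i` with cycles on `V' × Y`; by restriction to the generic fibre the same
holds for `X_i × V' × Z`. The Galois group of `k` acts on the cohomology of the constant variety `X_i`
through the Frobenius endomorphism, so the L-functions of `X_i × V' × Z` are products of the
functions `L(H^m(V' × Z), α T)`, `α` a Frobenius eigenvalue of `X_i`. The zeros and poles of the
L-functions of `V' × Z` are inverses of Frobenius eigenvalues of `V' × Y` (from the theorem of
Grothendieck, Beilinson, Bernstein, Deligne and Gabber for `Z`), so that only the `α` which are powers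
of `q` contribute to the order of vanishing at integers, and their number is the number of the `D_a`.

helper222; the absence of resonances and the Künneth formula are due to helper876 (with the estimates
of Gauss sums of helper528 and others), the L-functions of products to helper166, the
correspondences to helpers 484, 492 and 550.
-/

set_option autoImplicit false

open CategoryTheory AlgebraicGeometry Polynomial

namespace Pool.Agent.Results.MP_0b9e0b_ag.ConstantCyclicCoverings

open Pool.Agent.H914 Pool.Agent.H914.VarClass Pool.Agent.H914.VarClass.Obj Pool.Agent.W492.BB
  Pool.Agent.W484.CK Pool.Agent.N166.MU Pool.Agent.N166.BL Pool.Agent.N876.GB3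
  Pool.Agent.U222.BL

/-- **The conjecture of Beilinson and Bloch for products with constant cyclic coverings.** -/
theorem result (c : ℕ) [Fact c.Prime] (κ : Type) [Field κ] [Fintype κ] [CharP κ c] {ι : Type}
    (C : ι → Covering κ) (f N lam : ℕ) (hC : IsSmallSystem C c f N lam)
    {𝒱 : VarClass κ} (A : TheoryData.{0, 0, 0} 𝒱 ℚ) [IsChow A] {K : Type} [Field K]
    [IsAlgClosed K] [CharZero K] (H : WeilTheoryData.{0, 0, 0} A K) [IsWeil H] (τ : K →+* ℂ)
    (F : ∀ X : 𝒱.Obj, X ⟶ X) (X : ι → 𝒱.Obj) (Y : 𝒱.Obj)
    (h : IsCoveringFamily C N lam H τ F X Y)
    {k : Type} [Field k] {𝒱' : VarClass k} (A' : TheoryData.{0, 0, 0} 𝒱' ℚ) [IsChow A']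
    (H' : WeilTheoryData.{0, 0, 0} A' K) [IsWeil H'] {G : Type} (ρ : Operations H' G)
    (S : Places G) (X' : ι → 𝒱'.Obj) (Z : 𝒱'.Obj) (α : ∀ i, A.A (X i) → A'.A (X' i))
    (β : ∀ L : List ι, A.A (productOf X Y L) → A'.A (productOf X' Z L))
    (α' : ∀ i, H.A (X i) → H'.A (X' i)) (hfib : IsFibreSystem H F X Y ρ S X' Z α β α')
    (L : List ι) (hL : L.Nodup) : Conclusions ρ S (Fintype.card κ) X' Z L :=
  main c κ C f N lam hC A H τ F X Y h A' H' ρ S X' Z α β α' hfib L hL

end Pool.Agent.Results.MP_0b9e0b_ag.ConstantCyclicCoverings
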