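import Pool.Agent.U173.BB.Main

/-!
# The conjecture of Beilinson and Bloch over global function fields: constant factors with slope fields

Let `k` be the function field of a curve over the field with `p ^ m` elements, and `Z` **any** smooth
projective variety over `k`, in general not constant, the generic fibre of a morphism from a smooth
projective variety `Y` over the finite field to the curve. Let `X i`, `i ∈ I`, be smooth projective
varieties over the finite field. A field `L` of algebraic numbers is a slope field of a set of algebraic
numbers if the automorphisms over `L` do not change the `p`-adic absolute values of their conjugates.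
Let `M` be a slope field of the Frobenius eigenvalues of `Y`, for instance the field which they generate.
We assume (`IsConstantSystem`) that

* the cohomology of `X i` is generated by the classes of algebraic cycles and a subspace on which the
  Frobenius eigenvalues are Weil numbers with slope field `L i`, none of them supersingular;
* the fields are separated (`AreSeparated`): `L i` contains a totally real field `E i` and meets the
  compositum of `E i` and `M` in a totally real field; for `i < j` the field `L i` is normal over `E i`
  and meets the compositum of `E i` and `L j` in a totally real field;
* the Frobenius is semisimple on the cohomology of the `X i`, and homologically trivial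
  self-correspondences of degree zero of the products of copies of the `X i` and of `Y` are nilpotent.
  (Both is known, by Weil and Kimura, if the `X i` and `Y` are dominated by products of curves.)

The L-series of `Z` are rational functions with zeros and poles at inverses of Frobenius eigenvalues of
`Y` (known; part of `IsFibreSystem`). Let `V` be the product of finitely many different `X i`, as a
constant variety over `k`.

**Theorem** (`RankConclusions`).
* The formula `dim CH^i(V × Z)_0 = ord_{s=i} L(H^(2i-1)(V × Z), s)` **holds for all `i` if and only
  if the formula for `Z` holds for `1 ≤ i ≤ dim Z`.** In particular, if `Z` is an elliptic curve or any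
  curve, the formula for `V × Z` in all codimensions is equivalent to the rank formula of Birch and
  Swinnerton-Dyer for the Jacobian of `Z`; and the formula holds for `V` itself (`Z` a point).
* It holds for `V × Z` in all codimensions `≤ n` if and only if it does for `Z`; and in one
  codimension `i` if it holds for `Z` in the codimensions `m ≤ i` with `i - dim V ≤ m` and
  `1 ≤ m ≤ dim Z`.
* There are finitely many cycles `D a` on `X i` such that every cycle modulo rational equivalence on
  `X i × (V × Z)`, `X i` not in `V`, is `∑ D a × z a` in a unique way, homologically trivial if and only
  if the `z a` are, and the order of vanishing of `L(H^(2j-1)(X i × V × Z), s)` at `s = j` is the sum of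
  the orders of vanishing of `L(H^(2(j - deg a)-1)(V × Z), s)` at `s = j - deg a`.

Examples of factors. (a) Powers of ordinary elliptic curves over the finite field, with different
imaginary quadratic fields `L i` (here `E i = ℚ`), not contained in `M`: then `V` is an arbitrary product
of powers of these curves. (b) Powers of ordinary simple abelian surfaces, and their Kummer surfaces: `L i`
is the Galois closure of the field of complex multiplication and `E i = ℚ`; the condition is that these
fields and `M` meet in totally real fields. (c) If all classes in the cohomology of `Y` come from
cycles one can take `M = ℚ`, and there is no condition on `M` at all; examples are the elliptic curves `Z`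
over `κ(t)` which belong to rational elliptic surfaces `Y`, of rank up to eight.

The new part compared with the hand-in `ConstantCyclicCoverings` of helper222 on this problem is the class
of the factors `X i`: there cyclic coverings of projective spaces with conditions on the exponents
(theorem of Stickelberger), here a criterion of Galois theory for the slopes, for arbitrary varieties
with known Tate conjecture. The absence of resonances is `Pool/Agent/U173/SF/Sys.lean` (from
`U173/OP/Star`); the step from it to the L-functions and Chow groups over `k` is `bloch_step` of helper222
(`U222/BL`), with the library `N876/CG` of helper876 and `N166/BL` of helper166.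
-/

set_option autoImplicit false

open CategoryTheory AlgebraicGeometry

namespace Pool.Agent.Results.MP_0b9e0b_ag.ConstantSlopeFields

open Pool.Agent.H914 Pool.Agent.H914.VarClass Pool.Agent.H914.VarClass.Obj Pool.Agent.W492.BB
  Pool.Agent.W484.CK Pool.Agent.N166.MU Pool.Agent.N166.BL Pool.Agent.U231.FR.Base
  Pool.Agent.U173.BB

/-- **The formula of Beilinson and Bloch for products with constant varieties with slope fields.** -/
theorem result (κ : Type) [Field κ] {𝒱 : VarClass κ} (A : TheoryData.{0, 0, 0} 𝒱 ℚ) [IsChow A]
    {K : Type} [Field K] [IsAlgClosed K] [CharZero K] (H : WeilTheoryData.{0, 0, 0} A K) [IsWeil H]
    {I : Type} [LinearOrder I] (p m : ℕ) [Fact p.Prime]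
    (ι : AlgebraicClosure ℚ →+* PadicAlgCl p)
    (E : I → IntermediateField ℚ (AlgebraicClosure ℚ))
    (M : IntermediateField ℚ (AlgebraicClosure ℚ))
    (L : I → IntermediateField ℚ (AlgebraicClosure ℚ))
    (F : ∀ X : 𝒱.Obj, X ⟶ X) (X : I → 𝒱.Obj) (Y : 𝒱.Obj)
    (h : IsConstantSystem p m ι E M L H F X Y)
    {k : Type} [Field k] {𝒱' : VarClass k} (A' : TheoryData.{0, 0, 0} 𝒱' ℚ) [IsChow A']
    (H' : WeilTheoryData.{0, 0, 0} A' K) [IsWeil H'] {G : Type} (ρ : Operations H' G)
    (S : Places G) (X' : I → 𝒱'.Obj) (Z : 𝒱'.Obj) (α : ∀ i, A.A (X i) → A'.A (X' i))
    (β : ∀ l : List I, A.A (productOf X Y l) → A'.A (productOf X' Z l))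
    (α' : ∀ i, H.A (X i) → H'.A (X' i)) (hfib : IsFibreSystem H F X Y ρ S X' Z α β α')
    (l : List I) (hl : l.Nodup) : RankConclusions ρ S (p ^ m) X' Z l :=
  main A H p m ι E M L F X Y h A' H' ρ S X' Z α β α' hfib l hl

end Pool.Agent.Results.MP_0b9e0b_ag.ConstantSlopeFields
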