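import Mathlib
import Pool.Agent.Q29.EP.RowsCT
import Pool.Agent.Y1.BB.Main

/-!
# The formula of Beilinson and Bloch for constant abelian varieties with one half of all slope types
of every CM field of degree `2 r ^ k`

Let `K i` (`i` in a finite set) be CM fields of degree `2 g i` which are pairwise independent: for
`i ≠ k` and all complex embeddings `φ` of `K i` and `ψ` of `K k` some automorphism of `ℂ` is the
identity on `φ (K i)` and the complex conjugation on `ψ (K k)` (this is no condition if there is
only one field). We fix an isomorphism `ν` of the algebraic closure of `ℚ_p` with `ℂ`; it defines a
`p`-adic valuation of `ℂ`, with the value one at `p`. Let `M i` be a function with integral values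
on the complex embeddings of `K i`, invariant under complex conjugation (the weights). A CM type
`Φ i` of `K i` (a choice of one element out of each complex conjugate pair of embeddings), `M i` and
a real number `κ ≠ 0` prescribe the slopes `(a + κ M) / 2` (at the embeddings in `Φ i`) and
`(a - κ M) / 2` (outside of `Φ i`) of a Weil number for `p ^ a` in `K i`. If `p` splits completely
in `K i` then, by Honda and Tate, all rational slopes between `0` and `a` that are symmetric in this
way occur for abelian varieties over finite fields. The case `M = 1`, `κ = a` is the ordinary case.

**The property of the slope types.** For a family of types `Φ i` the property `Q` is the following.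
Let `π i` be Weil numbers for `q = p ^ a` that generate the fields `K i` and have the slope types
`Φ i`, `M i` (`HasType`), and let `f i` be monic polynomials whose complex roots are conjugates of
`π i` (`IsPolyOf`). Let `A` be an abelian variety over the field with `q` elements all of whose
Frobenius eigenvalues are roots of the `f i`, and `C` **any** curve over the field with `q ^ s`
elements, with function field `F`, each of whose Frobenius eigenvalues is unrelated to the fields
`K i` (`UnrelatedTo`) or is, up to a root of unity, the `s`-th power of a root of some `f i`
(`CurveEigen`; so `C` may have arbitrarily many isogeny factors in common with `A`). Then for every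
`k` (`BeilinsonBlochOver`, `OrderFormula`) the function `L (H ^ (2 k + 1) (A), s)` over `F` is
meromorphic and its order of vanishing at `s = k + 1` is the dimension of the space spanned by the
products of `k` divisor classes on `A` and one divisor class on `A × C`, modulo classes from `A`;
this is the rank of the group of homologically trivial cycles of codimension `k + 1` on the
constant abelian variety, as **the formula of Beilinson and Bloch** predicts.

**The theorem.** Let `K` be **any CM field of degree `2 g = 2 r ^ k`**, `r` a prime number, of
degree at least `16` if `r = 2`. Nothing is assumed about the Galois group of the normal closure of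
`K`, and nothing about the subfields of `K`.

* (`HalfOfAll`) For all weights `M` (odd if `r = 2`; if `r` is odd then `r` may divide some, but not
  all of them) the property `Q` is true for **at least one half of all `2 ^ g` types** of `K`.
* (`MostWithWeightsOne`) For the weights `M = 1` (for instance in the ordinary case) it is true for
  at least `(1 - 1 / r) 2 ^ g` of the types.
* (`OneOfTwo`) There is a set `B` of embeddings of `K`, stable under complex conjugation, such that
  for **every** type `Φ` it is true for `Φ` or for the symmetric difference of `Φ` and `B`.
* (`SixteenPercent`) There is a number `g₀` such that for every CM field that is **abelian over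
  `ℚ`**, of any degree `2 g ≥ 2 g₀`, and all odd weights it is true for at least 16 percent of all
  `2 ^ g` types; again nothing is assumed on the subfields.

All this is proved more generally for finitely many pairwise independent fields `K i`; the
proportions are then multiplied.

The earlier results for this problem treat almost all slope types of the fields with few CM
subfields, or whose degree has a large prime factor; nothing was known for the fields of 2-power
degree with many CM subfields. The proof joins two parts of the library of the starting files: the
theorem that one half of all types have no relations (`Pool.Agent.Q29.EP`, written for the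
conjecture of Parshin, MP_de59b4_ag), and the consequences of the absence of relations for this
problem.
-/

set_option autoImplicit false

namespace Pool.Agent.Results.MP_0b9e0b_ag.HalfOfAllTypes

open NumberField Module Polynomial Pool.Agent.H204R3.CM Pool.Agent.H977R3.CM Pool.Agent.Y1.KN
  Pool.Agent.Y1.CT Pool.Agent.Y1.BB Pool.Agent.Q29.EP

open Pool.Agent.Q29.DP (notMem_degTypes_of_noRelations)

/-- The property of the slope types `Φ i` with the weights `M i`. -/
def Q : TypeProperty := fun _ _ ν _ _ K _ _ _ M Φ => ForAllTypes ν K M (BeilinsonBlochOver K) Φ

theorem withoutRelations : WithoutRelations Q := by
  intro p _ ν I _ K _ _ _ M Φ hind hM hΦ hno a π f ha hπ hf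
  refine formula_of_noRel (Nat.one_lt_pow ha.ne' (Fact.out : p.Prime).one_lt) ?_
    ⟨fun i => (hf i).1, unrelated_one K, fun s hs ρ hρ => ?_⟩
  · intro i z hz
    obtain ⟨φ, rfl⟩ := (hf i).2 z hz
    have h4 := congrArg φ (hπ i).weil
    rw [map_mul, IsCMField.complexEmbedding_complexConj, map_pow, map_natCast] at h4
    have h5 := congrArg norm h4
    rw [norm_mul, norm_pow, Complex.norm_natCast, RCLike.norm_conj] at h5
    rw [sq, h5]
    push_cast
    rfl
  · exact exactPair_of_angle (Pool.Agent.Y1.TS.angle_types hind hM hΦ
      (fun i => notMem_degTypes_of_noRelations (hno i)) hπ) (fun i => (hπ i).weil) f hf s hs ρ hρ

/-- **The formula of Beilinson and Bloch holds, in all codimensions, for the constant abelian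
varieties with one half of all slope types of every CM field of degree `2 r ^ k`.** -/
theorem result : HalfOfAll Q ∧ MostWithWeightsOne Q ∧ OneOfTwo Q ∧ SixteenPercent Q :=
  ⟨halfOfAll withoutRelations, mostWithWeightsOne withoutRelations, oneOfTwo withoutRelations,
    sixteenPercent withoutRelations⟩

end Pool.Agent.Results.MP_0b9e0b_ag.HalfOfAllTypes
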