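import Mathlib
import Pool.Agent.U547.BB.Main

/-!
# The formula of Beilinson and Bloch for products of elliptic curves and abelian surfaces, and in total
dimension five, over function fields

Let `q = p ^ a`, let `A` be an abelian variety and `C` a smooth projective geometrically connected
curve, with Jacobian variety `J`, over the field with `q` elements, `F` the function field of `C`
and `X = A_F`. Every global function field with field of constants of `q` elements is such an `F`.
`A` and `J` are given, up to isogeny, as reductions of abelian varieties of CM type (`RedAV`, a file
of the starting repository; by the theorems of Honda and Tate this is no restriction after a finite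
extension of the ground field). `P` is the set of closed points of `C`, `deg` the degree (`IsCurve`:
the numbers of points of `C` over the finite extensions are those given by the Frobenius
endomorphism of `J`).

A factor of `J` is **unrelated** to `A` (`IsUnrelated`) if no product of one eigenvalue of its
Frobenius endomorphism and of `n` eigenvalues of the Frobenius endomorphism of `A` is, up to a root of
unity, a square root of `q ^ (n + 1)`. The unrelated factors are arbitrary. Let `J'` be the product of
the other factors (`relatedPart`).

**The theorem.** Suppose that

1. all factors of `A` and of `J'` are elliptic curves and abelian surfaces (or isogenous to powers of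
   such, or supersingular); in particular this is so, **for all products `A` of elliptic curves and
   abelian surfaces, if the genus of `C` is at most two, or if each simple factor of `J` has
   dimension at most two or is unrelated to `A`**; or
2. `dim A + dim J' ≤ 5`; or
3. `A` and `J'` are isogenous to products of powers of the factors of an abelian variety `Z`, and of
   supersingular abelian varieties; the factors of `Z` have dimension at most three, and any two
   nonisogenous and not supersingular factors of dimension three whose CM fields have the same
   Galois closure have CM fields that are Galois over `ℚ` (`HasSmallFactors`).

Then for all `k` the Euler product of `L (H ^ (2 k + 1) (X), s)` converges for `Re s > k + 3 / 2` and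
has a meromorphic continuation, and its order at `s = k + 1` is the dimension of the space of classes
`t` in `H ^ (2 k + 1) (A) ⊗ H ^ 1 (C)` on which the Frobenius endomorphism acts as multiplication by
`q ^ (k + 1)` and whose classes in `H ^ (2 k + 2) (A × J)` belong to the system `AlgS` of algebraic
classes: the smallest system that contains the Tate classes of degree two (algebraic by Tate), the
reductions of the Hodge classes of degree four on products of elliptic curves and abelian surfaces
of CM type (algebraic by Ramón Marí), and, in the cases 2 and 3 only, the reductions of the split Weil
classes of imaginary quadratic fields on abelian fourfolds and sixfolds of CM type (algebraic by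
Markman), and which is stable under linear combinations, cup products, pull-backs and push-forwards.

So these classes come from cycles of codimension `k + 1` on `A × C`, which give homologically trivial
cycles on `X`. By the theorem of Kahn (based on Kimura, O'Sullivan, Soulé, Geisser) a motive of
abelian type over a finite field all of whose Tate classes are algebraic has no other cycles modulo
rational equivalence; so the dimension is that of `CH ^ (k + 1) (X)_0`, and **the formula of Beilinson
and Bloch holds for `X`, in all codimensions**.

The earlier results on constant abelian varieties for this problem suppose that the slopes or the
Galois groups of the CM fields are generic, or exclude a small proportion of the abelian varieties or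
of the types; there all classes are combinations of products of divisors, which is not so here.
-/

set_option autoImplicit false

namespace Pool.Agent.Results.MP_0b9e0b_ag.LowDimensionalConstant

open Module Pool.Agent.W495.TA Pool.Agent.W547.KB Pool.Agent.TH117.BL Pool.Agent.Y137.SF
  Pool.Agent.U547.BB

/-- **The formula of Beilinson and Bloch**, in all codimensions, for constant abelian varieties which
are products of elliptic curves and abelian surfaces (with the classes of Ramón Marí), or in total
dimension at most five, or with factors of dimension at most three (also with Weil classes of degree
four and six), over the function fields of all curves each factor of whose Jacobian is of the same kind or unrelated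
to the abelian variety. -/
theorem result (p : ℕ) [Fact p.Prime] (ν : PadicAlgCl p ≃+* ℂ) (A J : RedAV p ν) (ha : J.a = A.a)
    {P : Type} (deg : P → ℕ) (hP : IsCurve J (p ^ A.a) deg) (k : ℕ) :
    ((((∀ i, finrank ℚ (A.X.factor i).E ≤ 4) ∧
        ∀ i, IsUnrelated A J i ∨ finrank ℚ (J.X.factor i).E ≤ 4) ∨
      ∃ Z : RedAV p ν, (∀ i, finrank ℚ (Z.X.factor i).E ≤ 4) ∧ IsPowersTimesSupersingular Z A ∧
        IsPowersTimesSupersingular Z (relatedPart A J)) →
      ∃ Λ : ℂ → ℂ, IsLFunction A k deg Λ ∧ meromorphicOrderAt Λ ((k : ℂ) + 1) =
        ((finrank ℂ (algebraicClassesS ∅ A J k) : ℤ) : WithTop ℤ)) ∧
    ((finrank ℚ A.X.H1 + finrank ℚ (relatedPart A J).X.H1 ≤ 10 ∨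
      ∃ Z : RedAV p ν, HasSmallFactors Z ∧ IsPowersTimesSupersingular Z A ∧
        IsPowersTimesSupersingular Z (relatedPart A J)) →
      ∃ Λ : ℂ → ℂ, IsLFunction A k deg Λ ∧ meromorphicOrderAt Λ ((k : ℂ) + 1) =
        ((finrank ℂ (algebraicClassesS {4, 6} A J k) : ℤ) : WithTop ℤ)) :=
  main A J ha deg hP k

end Pool.Agent.Results.MP_0b9e0b_ag.LowDimensionalConstant
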